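import Mathlib
import Pool.Agent.H56.CF.Main
import Pool.Agent.H56.CF.Per
import Pool.Agent.H84.UC.FinalNet
import Pool.Agent.H56.DI.Conv
import Pool.Agent.H91.Fatou.Main

/-!
# Fibred rational maps: density of hyperbolicity over totally disconnected bases, and only over these

Part 1: let `T` be a homeomorphism of a compact zero dimensional space `X` without periodic points of period
`< N(ε)` (for instance without periodic points at all).  Every continuous family of pairs of polynomials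
of degree at most `d` over `X` is `ε`-close to a robustly hyperbolic fibred rational map of degree `d`
over `(X, T)`.

Part 2: over a minimal homeomorphism of an infinite compact Hausdorff space hyperbolicity is dense if and only if
the space is totally disconnected.
-/

set_option autoImplicit false

namespace Pool.Agent.Results.MP_8f2e1c_an.FibredDichotomy

open Polynomial
open scoped ComplexConjugate

universe u

/-- The polynomial with coefficient vector `v`. -/
noncomputable def poly {d : ℕ} (v : Fin (d + 1) → ℂ) : Polynomial ℂ := ∑ i, C (v i) * X ^ (i : ℕ)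

/-- Pairs `(P, Q)` of polynomials of degree at most `d`, given by their coefficients. -/
abbrev Pair (d : ℕ) : Type := (Fin (d + 1) → ℂ) × (Fin (d + 1) → ℂ)

/-- `P` and `Q` are coprime and the larger degree is `d`: `P/Q` is a rational map of degree `d`. -/
def Nondeg {d : ℕ} (p : Pair d) : Prop :=
  IsCoprime (poly p.1) (poly p.2) ∧ max (poly p.1).natDegree (poly p.2).natDegree = d

/-- `f` is the self-map of the Riemann sphere given by the rational function `P/Q`. -/
def Represents {d : ℕ} (p : Pair d) (f : OnePoint ℂ → OnePoint ℂ) : Prop :=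
  Continuous f ∧ ∀ z : ℂ, (poly p.2).eval z ≠ 0 →
    f (OnePoint.some z) = OnePoint.some ((poly p.1).eval z / (poly p.2).eval z)

/-- The pair `(a P - b̄ Q, b P + ā Q)` of `R ∘ (P/Q)`, where `R` is the rotation
`z ↦ (a z - b̄) / (b z + ā)`. -/
noncomputable def rotate {d : ℕ} (a b : ℂ) (p : Pair d) : Pair d :=
  (fun i => a * p.1 i - conj b * p.2 i, fun i => b * p.1 i + conj a * p.2 i)

/-- all coefficients of `p` and `q` differ by less than `ε` -/
def Close {d : ℕ} (p q : Pair d) (ε : ℝ) : Prop := ∀ i, ‖p.1 i - q.1 i‖ < ε ∧ ‖p.2 i - q.2 i‖ < ε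

/-- `compose f n = f (n-1) ∘ ... ∘ f 1 ∘ f 0` -/
def compose (f : ℕ → OnePoint ℂ → OnePoint ℂ) : ℕ → OnePoint ℂ → OnePoint ℂ
  | 0 => id
  | n + 1 => f n ∘ compose f n

/-- `f` is hyperbolic, in the words of the frozen statement `S05373`: every critical point
(point where `f` is not locally injective) is attracted to an attracting periodic cycle. -/
def Hyperbolic (f : OnePoint ℂ → OnePoint ℂ) : Prop :=
  ∀ c : OnePoint ℂ, (¬ ∃ U ∈ nhds c, Set.InjOn f U) →
    ∃ z : OnePoint ℂ, ∃ n : ℕ, 0 < n ∧ f^[n] z = z ∧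
      (∃ U ∈ nhds z, ∀ w ∈ U,
        Filter.Tendsto (fun k : ℕ => f^[n * k] w) Filter.atTop (nhds z)) ∧
      Filter.Tendsto (fun k : ℕ => f^[n * k] c) Filter.atTop (nhds z)

/-- the chordal distance on the Riemann sphere -/
noncomputable def chord (x y : OnePoint ℂ) : ℝ :=
  x.elim (y.elim 0 (fun w => 1 / √(1 + ‖w‖ ^ 2)))
    (fun z => y.elim (1 / √(1 + ‖z‖ ^ 2))
      (fun w => ‖z - w‖ / (√(1 + ‖z‖ ^ 2) * √(1 + ‖w‖ ^ 2))))

/-- The fibred map `(x, z) ↦ (T x, g x z)` is uniformly hyperbolic: there are `δ > 0` and `l < 1` such that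
the `δ`-balls around all points of all critical orbits are contracted exponentially fast. -/
def UniformlyHyperbolic {B : Type*} (T : B → B) (g : B → OnePoint ℂ → OnePoint ℂ) : Prop :=
  ∃ δ : ℝ, 0 < δ ∧ ∃ C l : ℝ, 0 < l ∧ l < 1 ∧
    ∀ (x : B) (c : OnePoint ℂ), (¬ ∃ U ∈ nhds c, Set.InjOn (g x) U) →
      ∀ (k n : ℕ) (y : OnePoint ℂ), chord y (compose (fun j => g (T^[j] x)) k c) < δ →
        chord (compose (fun j => g (T^[k + j] x)) n y)
          (compose (fun j => g (T^[j] x)) (k + n) c) ≤ C * l ^ n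

/-- The pairs `q x` are rational maps `g x` of degree exactly `d`, the fibred map `(x, z) ↦ (T x, g x z)`
is uniformly hyperbolic, and so are (in the sense of `S05373`) the compositions along all periodic
orbits of `T`. -/
def HyperbolicFamily {B : Type*} {d : ℕ} (T : B → B) (q : B → Pair d) : Prop :=
  (∀ x, Nondeg (q x)) ∧ ∃ g : B → OnePoint ℂ → OnePoint ℂ, (∀ x, Represents (q x) (g x)) ∧
    UniformlyHyperbolic T g ∧
    ∀ (x : B) (n : ℕ), 0 < n → T^[n] x = x → Hyperbolic (compose (fun j => g (T^[j] x)) n)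

theorem chord_eq (x y : OnePoint ℂ) : chord x y = dist x y := by
  have hnn : ∀ z : ℂ, Pool.Agent.H91.Fatou.nn z 1 = √(1 + ‖z‖ ^ 2) := by
    intro z
    unfold Pool.Agent.H91.Fatou.nn
    rw [norm_one, one_pow, add_comm]
  induction x using OnePoint.rec with
  | infty =>
    induction y using OnePoint.rec with
    | infty => rw [dist_self]; rfl
    | coe w =>
      rw [dist_comm, Pool.Agent.H84.UC.dist_coe_infty, hnn]
      rfl
  | coe z =>
    induction y using OnePoint.rec with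
    | infty =>
      rw [Pool.Agent.H84.UC.dist_coe_infty, hnn]
      rfl
    | coe w =>
      rw [Pool.Agent.H84.UC.dist_coe, hnn, hnn]
      rfl

theorem compose_eq {B : Type*} (T : B → B) (g : B → OnePoint ℂ → OnePoint ℂ) (x : B) (k n : ℕ)
    (y : OnePoint ℂ) : compose (fun j => g (T^[k + j] x)) n y =
      Pool.Agent.H84.UC.cp (Pool.Agent.H56.CF.orb T g x) k n y := by
  induction n with
  | zero => rfl
  | succ n ih =>
    rw [Pool.Agent.H84.UC.cp_succ, ← ih]
    rfl

theorem compose_eq0 {B : Type*} (T : B → B) (g : B → OnePoint ℂ → OnePoint ℂ) (x : B) (n : ℕ) :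
    compose (fun j => g (T^[j] x)) n =
      Pool.Agent.H84.UC.cp (Pool.Agent.H56.CF.orb T g x) 0 n := by
  funext y
  have := compose_eq T g x 0 n y
  simp only [Nat.zero_add] at this
  exact this

/-- The general statement, for spaces of one universe. -/
theorem general (d : ℕ) (hd : 2 ≤ d) (K : Set (Pair d)) (hK : IsCompact K)
    (hKd : ∀ p ∈ K, Nondeg p) (ε : ℝ) (hε : 0 < ε) (M : ℕ) (hM : 1 ≤ M) :
    ∃ N C : ℕ, ∀ (B : Type u) [TopologicalSpace B] [CompactSpace B] [T2Space B]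
      [TotallyDisconnectedSpace B] (T : B ≃ₜ B),
      (∀ (x : B) (n : ℕ), 0 < n → n < N → (⇑T)^[n] x ≠ x) →
      ∀ p : B → Pair d, Continuous p → (∀ x i, ‖(p x).1 i‖ ≤ 1 ∧ ‖(p x).2 i‖ ≤ 1) →
      ∃ q : B → Pair d, Continuous q ∧ (∀ x, Close (q x) (p x) ε) ∧
        (∃ η : ℝ, 0 < η ∧ ∀ q' : B → Pair d, (∀ x, Close (q' x) (q x) η) →
          HyperbolicFamily (⇑T) q') ∧
        ∃ a b : B → ℂ, IsLocallyConstant a ∧ IsLocallyConstant b ∧
          (∀ x, ‖a x‖ ^ 2 + ‖b x‖ ^ 2 = 1 ∧ ‖a x - 1‖ < ε ∧ ‖b x‖ < ε) ∧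
          (∀ x, p x ∈ K → q x = rotate (a x) (b x) (p x)) ∧
          (∀ (x : B) (n : ℕ), M * {j : ℕ | j < n ∧
            ¬ (a ((⇑T)^[j] x) = 1 ∧ b ((⇑T)^[j] x) = 0)}.ncard ≤ n + C) ∧
          (∀ (x : B) (n : ℕ), (⇑T)^[n] x = x → M * {j : ℕ | j < n ∧
            ¬ (a ((⇑T)^[j] x) = 1 ∧ b ((⇑T)^[j] x) = 0)}.ncard ≤ n) := by
  obtain ⟨N, C, h⟩ := Pool.Agent.H56.CF.main_cf.{u} hd hK (fun p hp => hKd p hp)
    (min (ε / 4) 1) (by positivity) M hM
  refine ⟨N, C, ?_⟩
  intro B _ _ _ _ T hT p hp hp1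
  have hε1 : min (ε / 4) 1 ≤ ε / 4 := min_le_left _ _
  have hε2 : min (ε / 4) 1 ≤ 1 := min_le_right _ _
  have hε0 : 0 < min (ε / 4) 1 := by positivity
  have hp' : ∀ x, ‖p x‖ ≤ 1 := by
    intro x
    rw [Prod.norm_def, max_le_iff, pi_norm_le_iff_of_nonneg zero_le_one,
      pi_norm_le_iff_of_nonneg zero_le_one]
    exact ⟨fun i => (hp1 x i).1, fun i => (hp1 x i).2⟩
  obtain ⟨A, q, hA, hq, hqd, hqK, hA1, hqp, hrare, η, hη, hhyp⟩ := h T hT p hp hp'
  have hset : ∀ (x : B) (n : ℕ), {j : ℕ | j < n ∧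
      ¬ ((A ((⇑T)^[j] x)).a = 1 ∧ (A ((⇑T)^[j] x)).b = 0)} =
      {j : ℕ | j < n ∧ A ((⇑T)^[j] x) ≠ 1} := by
    intro x n
    ext j
    constructor
    · rintro ⟨h5, h6⟩
      refine ⟨h5, fun h7 => h6 ?_⟩
      rw [h7]
      exact ⟨rfl, rfl⟩
    · rintro ⟨h5, h6⟩
      exact ⟨h5, fun h7 => h6 (Pool.Agent.H84.UC.SU.ext h7.1 h7.2)⟩
  refine ⟨fun x => Pool.Agent.H56.CF.rotc (A x) (q x), ?_, ?_, ⟨η / 2, by positivity, ?_⟩,
    fun x => (A x).a, fun x => (A x).b, hA.comp Pool.Agent.H84.UC.SU.a,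
    hA.comp Pool.Agent.H84.UC.SU.b, ?_, ?_, ?_, ?_⟩
  · have ha : Continuous (fun x => (A x).a) := (hA.comp Pool.Agent.H84.UC.SU.a).continuous
    have hb : Continuous (fun x => (A x).b) :=
      (hA.comp Pool.Agent.H84.UC.SU.b).continuous
    have hac : Continuous (fun x => conj (A x).a) := Complex.continuous_conj.comp ha
    have hbc : Continuous (fun x => conj (A x).b) := Complex.continuous_conj.comp hb
    have hq1 : ∀ i, Continuous (fun x => (q x).1 i) := fun i =>
      (continuous_apply i).comp (continuous_fst.comp hq)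
    have hq2 : ∀ i, Continuous (fun x => (q x).2 i) := fun i =>
      (continuous_apply i).comp (continuous_snd.comp hq)
    exact (continuous_pi fun i => (ha.mul (hq1 i)).sub (hbc.mul (hq2 i))).prodMk
      (continuous_pi fun i => (hb.mul (hq1 i)).add (hac.mul (hq2 i)))
  · intro x
    have h1 := Pool.Agent.H56.CF.rotc_close (hA1 x).le (q x)
    have h2 : ‖q x‖ ≤ 2 := by
      have := norm_add_le (q x - p x) (p x)
      rw [sub_add_cancel] at this
      linarith [hqp x, hp' x]
    have h3 : ‖Pool.Agent.H56.CF.rotc (A x) (q x) - p x‖ < ε := by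
      have e : Pool.Agent.H56.CF.rotc (A x) (q x) - p x =
          (Pool.Agent.H56.CF.rotc (A x) (q x) - q x) + (q x - p x) := by abel
      rw [e]
      refine (norm_add_le _ _).trans_lt ?_
      have h4 : min (ε / 4) 1 * ‖q x‖ ≤ ε / 4 * 2 :=
        mul_le_mul hε1 h2 (norm_nonneg _) (by positivity)
      linarith [hqp x]
    rw [Prod.norm_def, max_lt_iff, pi_norm_lt_iff hε, pi_norm_lt_iff hε] at h3
    exact fun i => ⟨h3.1 i, h3.2 i⟩
  · intro q' hq'
    set q1 : B → Pair d := fun x => Pool.Agent.H56.CF.rotc (A x).inv (q' x) with hq1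
    have hd1 : ∀ x, dist (q1 x) (q x) < η := by
      intro x
      have h1 : dist (q' x) (Pool.Agent.H56.CF.rotc (A x) (q x)) < η / 2 := by
        rw [Prod.dist_eq, max_lt_iff, dist_pi_lt_iff (by positivity),
          dist_pi_lt_iff (by positivity)]
        refine ⟨fun i => ?_, fun i => ?_⟩
        · rw [dist_eq_norm]
          exact (hq' x i).1
        · rw [dist_eq_norm]
          exact (hq' x i).2
      have h2 := Pool.Agent.H56.CF.dist_rotc (A x).inv (q' x)
        (Pool.Agent.H56.CF.rotc (A x) (q x))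
      rw [Pool.Agent.H56.CF.inv_rotc] at h2
      linarith
    obtain ⟨hnd, δ, hδ, C', l, hl0, hl1, hc⟩ := hhyp q1 hd1
    have hq'1 : ∀ x, Pool.Agent.H56.CF.rotc (A x) (q1 x) = q' x := fun x =>
      Pool.Agent.H56.CF.rotc_inv (A x) (q' x)
    have hnd' : ∀ x, q' x ∈ Pool.Agent.H56.CF.ND d := by
      intro x
      rw [← hq'1 x]
      exact Pool.Agent.H56.CF.rotc_nd _ (hnd x)
    have hG : (fun (x : B) (y : OnePoint ℂ) => A x • Pool.Agent.H56.CF.rm (q1 x) y) =
        fun x => Pool.Agent.H56.CF.rm (q' x) := by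
      funext x y
      rw [← Pool.Agent.H56.CF.rm_rotc (A x) (hnd x), hq'1]
    have hG' : ∀ x, (fun (y : OnePoint ℂ) => A x • Pool.Agent.H56.CF.rm (q1 x) y) =
        Pool.Agent.H56.CF.rm (q' x) := fun x => congrFun hG x
    rw [hG] at hc
    simp only [hG'] at hc
    refine ⟨hnd', fun x => Pool.Agent.H56.CF.rm (q' x), fun x => ?_, ?_, ?_⟩
    · exact Pool.Agent.H84.UC.rat_represents (hnd' x).1
    · refine ⟨δ, hδ, C', l, hl0, hl1, fun x c hcrit k n y hy => ?_⟩
      have e1 := compose_eq (⇑T) (fun x => Pool.Agent.H56.CF.rm (q' x)) x k n y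
      have e2 := fun m => compose_eq0 (⇑T) (fun x => Pool.Agent.H56.CF.rm (q' x)) x m
      rw [e1, e2, chord_eq]
      rw [e2, chord_eq] at hy
      exact hc x c hcrit k n y hy
    · intro x n hn hx
      rw [compose_eq0 (⇑T) (fun x => Pool.Agent.H56.CF.rm (q' x)) x n]
      intro c hcrit
      exact Pool.Agent.H56.CF.attr_periodic
        (fun x => (Pool.Agent.H56.CF.rm_lift (hnd' x)).continuous) hδ hl0 hl1 hc hn hx c hcrit
  · intro x
    have h1 := hA1 x
    have h2 := norm_nonneg ((A x).a - 1)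
    have h3 := norm_nonneg (A x).b
    exact ⟨(A x).norm_sq, by linarith, by linarith⟩
  · intro x hx
    show Pool.Agent.H56.CF.rotc (A x) (q x) = rotate (A x).a (A x).b (p x)
    rw [hqK x hx]
    rfl
  · intro x n
    show M * {j : ℕ | j < n ∧ ¬ ((A ((⇑T)^[j] x)).a = 1 ∧ (A ((⇑T)^[j] x)).b = 0)}.ncard ≤ n + C
    rw [hset]
    exact hrare x n
  · intro x n hx
    show M * {j : ℕ | j < n ∧ ¬ ((A ((⇑T)^[j] x)).a = 1 ∧ (A ((⇑T)^[j] x)).b = 0)}.ncard ≤ n
    rw [hset]
    exact Pool.Agent.H56.CF.rare_periodic (fun x => A x ≠ 1) M C n x hx (hrare x)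

/-- The cyclic base: words of rational maps. -/
theorem words (d : ℕ) (hd : 2 ≤ d) (K : Set (Pair d)) (hK : IsCompact K)
    (hKd : ∀ p ∈ K, Nondeg p) (ε : ℝ) (hε : 0 < ε) (M : ℕ) (hM : 1 ≤ M) :
    ∃ N : ℕ, ∀ n ≥ N, ∀ p : ℕ → Pair d, (∀ j i, ‖(p j).1 i‖ ≤ 1 ∧ ‖(p j).2 i‖ ≤ 1) →
      ∃ (q : ℕ → Pair d) (a b : ℕ → ℂ) (g : ℕ → OnePoint ℂ → OnePoint ℂ),
        (∀ j < n, Nondeg (q j) ∧ Close (q j) (p j) ε ∧ Represents (q j) (g j)) ∧
        Hyperbolic (compose g n) ∧
        (∀ j, ‖a j‖ ^ 2 + ‖b j‖ ^ 2 = 1 ∧ ‖a j - 1‖ < ε ∧ ‖b j‖ < ε) ∧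
        (∀ j < n, p j ∈ K → q j = rotate (a j) (b j) (p j)) ∧
        M * {j : ℕ | j < n ∧ ¬ (a j = 1 ∧ b j = 0)}.ncard ≤ n := by
  obtain ⟨N, C, h⟩ := general.{0} d hd K hK hKd ε hε M hM
  refine ⟨max N 1, fun n hn p hp => ?_⟩
  have hn1 : 1 ≤ n := (le_max_right _ _).trans hn
  have hnN : N ≤ n := (le_max_left _ _).trans hn
  haveI : NeZero n := ⟨by omega⟩
  have hT : ∀ (m : ℕ) (x : ZMod n), (⇑(Homeomorph.addRight (1 : ZMod n)))^[m] x = x + m := by
    intro m
    induction m with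
    | zero => intro x; simp
    | succ m ih =>
      intro x
      rw [Function.iterate_succ_apply', ih]
      show x + m + 1 = x + ((m + 1 : ℕ) : ZMod n)
      push_cast
      ring
  have hT0 : ∀ m : ℕ, (⇑(Homeomorph.addRight (1 : ZMod n)))^[m] 0 = (m : ZMod n) := by
    intro m
    rw [hT, zero_add]
  have hval : ∀ j < n, ((j : ZMod n)).val = j := fun j hj => ZMod.val_cast_of_lt hj
  obtain ⟨q, -, hq2, ⟨η, hη, hq3⟩, a, b, -, -, hab, hK', -, hrare⟩ := h (ZMod n)
    (Homeomorph.addRight (1 : ZMod n))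
    (by
      intro x m hm1 hm2 hx
      rw [hT] at hx
      have h1 : (m : ZMod n) = 0 := by
        have h2 : x + (m : ZMod n) = x + 0 := by rw [hx, add_zero]
        exact add_left_cancel h2
      rw [ZMod.natCast_eq_zero_iff] at h1
      have h3 := Nat.le_of_dvd hm1 h1
      omega)
    (fun x => p x.val) continuous_of_discreteTopology (fun x i => hp _ i)
  obtain ⟨hnd, g, hg1, -, hg3⟩ := hq3 q (fun x i => by
    rw [sub_self, sub_self, norm_zero]
    exact ⟨hη, hη⟩)
  refine ⟨fun j => q (j : ZMod n), fun j => a (j : ZMod n), fun j => b (j : ZMod n),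
    fun j => g (j : ZMod n), ?_, ?_, fun j => hab _, ?_, ?_⟩
  · intro j hj
    have h1 := hq2 (j : ZMod n)
    simp only [hval j hj] at h1
    exact ⟨hnd _, h1, hg1 _⟩
  · have h1 := hg3 0 n (by omega) (by rw [hT0, ZMod.natCast_self])
    simp only [hT0] at h1
    exact h1
  · intro j hj hpK
    have h1 := hK' (j : ZMod n)
    simp only [hval j hj] at h1
    exact h1 hpK
  · have h1 := hrare 0 n (by rw [hT0, ZMod.natCast_self])
    simp only [hT0] at h1
    exact h1

/-- closed invariant sets are trivial -/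
def MinimalHomeo {B : Type*} [TopologicalSpace B] (T : B ≃ₜ B) : Prop :=
  ∀ F : Set B, IsClosed F → ⇑T '' F = F → F = ∅ ∨ F = Set.univ

/-- multiplication of a pair by a scalar -/
noncomputable def scale {d : ℕ} (m : ℂ) (p : Pair d) : Pair d := (fun i => m * p.1 i, fun i => m * p.2 i)

theorem poly_scale {d : ℕ} (m : ℂ) (v : Fin (d + 1) → ℂ) :
    poly (fun i => m * v i) = C m * poly v := by
  unfold poly
  rw [Finset.mul_sum]
  refine Finset.sum_congr rfl fun i _ => ?_
  rw [C_mul, mul_assoc]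

theorem scale_nondeg {d : ℕ} {m : ℂ} (hm : m ≠ 0) {p : Pair d} (h : Nondeg p) :
    Nondeg (scale m p) := by
  have hu : IsUnit (C m : Polynomial ℂ) := isUnit_C.2 hm.isUnit
  refine ⟨?_, ?_⟩
  · show IsCoprime (poly fun i => m * p.1 i) (poly fun i => m * p.2 i)
    rw [poly_scale, poly_scale]
    exact (isCoprime_mul_unit_left hu _ _).2 h.1
  · show max (poly fun i => m * p.1 i).natDegree (poly fun i => m * p.2 i).natDegree = d
    rw [poly_scale, poly_scale, natDegree_C_mul hm, natDegree_C_mul hm]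
    exact h.2

theorem scale_represents {d : ℕ} {m : ℂ} (hm : m ≠ 0) {p : Pair d} {f : OnePoint ℂ → OnePoint ℂ}
    (h : Represents p f) : Represents (scale m p) f := by
  refine ⟨h.1, fun z hz => ?_⟩
  have hz' : (poly fun i => m * p.2 i).eval z ≠ 0 := hz
  show f (OnePoint.some z) = OnePoint.some ((poly fun i => m * p.1 i).eval z /
    (poly fun i => m * p.2 i).eval z)
  rw [poly_scale, eval_mul, eval_C] at hz'
  rw [poly_scale, poly_scale, eval_mul, eval_mul, eval_C, mul_div_mul_left _ _ hm]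
  exact h.2 z (right_ne_zero_of_mul hz')

theorem scale_hyp {B : Type*} {d : ℕ} {T : B → B} {m : ℂ} (hm : m ≠ 0) {q : B → Pair d}
    (h : HyperbolicFamily T q) : HyperbolicFamily T (fun x => scale m (q x)) := by
  obtain ⟨h1, g, h2, h3, h4⟩ := h
  exact ⟨fun x => scale_nondeg hm (h1 x), g, fun x => scale_represents hm (h2 x), h3, h4⟩

theorem scale_inv {d : ℕ} {m : ℂ} (hm : m ≠ 0) (p : Pair d) : scale m (scale m⁻¹ p) = p := by
  unfold scale
  ext i <;> simp [hm]

theorem scale_close {d : ℕ} {m : ℂ} {p q : Pair d} {ε : ℝ} (hm : m ≠ 0) (h : Close p q ε) :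
    Close (scale m p) (scale m q) (‖m‖ * ε) := by
  intro i
  have h0 : 0 < ‖m‖ := norm_pos_iff.2 hm
  refine ⟨?_, ?_⟩
  · show ‖m * p.1 i - m * q.1 i‖ < _
    rw [← mul_sub, norm_mul]
    exact mul_lt_mul_of_pos_left (h i).1 h0
  · show ‖m * p.2 i - m * q.2 i‖ < _
    rw [← mul_sub, norm_mul]
    exact mul_lt_mul_of_pos_left (h i).2 h0

theorem scale_continuous {B : Type*} [TopologicalSpace B] {d : ℕ} (m : ℂ) {p : B → Pair d}
    (h : Continuous p) : Continuous fun x => scale m (p x) := by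
  refine (continuous_pi fun i => continuous_const.mul ?_).prodMk
    (continuous_pi fun i => continuous_const.mul ?_)
  · exact (continuous_apply i).comp (continuous_fst.comp h)
  · exact (continuous_apply i).comp (continuous_snd.comp h)

/-- density over a totally disconnected base, without a bound for the coefficients -/
theorem dense_of_td (d : ℕ) (hd : 2 ≤ d) (B : Type u) [TopologicalSpace B] [CompactSpace B]
    [T2Space B] [TotallyDisconnectedSpace B] (T : B ≃ₜ B)
    (hT : ∀ (x : B) (n : ℕ), 0 < n → (⇑T)^[n] x ≠ x) (p : B → Pair d) (hp : Continuous p) (ε : ℝ)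
    (hε : 0 < ε) : ∃ q : B → Pair d, Continuous q ∧ (∀ x, Close (q x) (p x) ε) ∧
      ∃ η : ℝ, 0 < η ∧ ∀ q' : B → Pair d, (∀ x, Close (q' x) (q x) η) →
        HyperbolicFamily (⇑T) q' := by
  obtain ⟨m, hm1, hm⟩ : ∃ m : ℝ, 1 ≤ m ∧ ∀ x, ‖p x‖ ≤ m := by
    obtain ⟨m, hm⟩ := isCompact_univ.exists_bound_of_continuousOn (f := p) hp.continuousOn
    exact ⟨max m 1, le_max_right _ _, fun x => (hm x (Set.mem_univ x)).trans (le_max_left _ _)⟩
  have hm0 : 0 < m := by linarith
  have hmc : (m : ℂ) ≠ 0 := by exact_mod_cast hm0.ne'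
  have hmi : (m : ℂ)⁻¹ ≠ 0 := inv_ne_zero hmc
  have hnm : ‖(m : ℂ)‖ = m := by
    rw [Complex.norm_real, Real.norm_eq_abs, abs_of_pos hm0]
  have hni : ‖(m : ℂ)⁻¹‖ = m⁻¹ := by rw [norm_inv, hnm]
  obtain ⟨N, C, h⟩ := general.{u} d hd ∅ isCompact_empty (fun p hp => absurd hp (by simp))
    (m⁻¹ * ε) (by positivity) 1 le_rfl
  obtain ⟨q, hq, hq1, ⟨η, hη, hq2⟩, -⟩ := h B T (fun x n h1 _ => hT x n h1)
    (fun x => scale (m : ℂ)⁻¹ (p x)) (scale_continuous _ hp) (fun x i => by
      have h1 := hm x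
      rw [Prod.norm_def, max_le_iff, pi_norm_le_iff_of_nonneg hm0.le,
        pi_norm_le_iff_of_nonneg hm0.le] at h1
      refine ⟨?_, ?_⟩
      · show ‖(m : ℂ)⁻¹ * (p x).1 i‖ ≤ 1
        rw [norm_mul, hni, inv_mul_le_one₀ hm0]
        exact h1.1 i
      · show ‖(m : ℂ)⁻¹ * (p x).2 i‖ ≤ 1
        rw [norm_mul, hni, inv_mul_le_one₀ hm0]
        exact h1.2 i)
  refine ⟨fun x => scale (m : ℂ) (q x), scale_continuous _ hq, fun x => ?_, m * η,
    by positivity, fun q' hq' => ?_⟩
  · have h1 := scale_close hmc (hq1 x)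
    rw [scale_inv hmc, hnm, ← mul_assoc, mul_inv_cancel₀ hm0.ne', one_mul] at h1
    exact h1
  · have h1 := hq2 (fun x => scale (m : ℂ)⁻¹ (q' x)) (fun x => by
      have h2 := scale_close hmi (hq' x)
      have h3 : scale (m : ℂ)⁻¹ (scale (m : ℂ) (q x)) = q x := by
        have := scale_inv hmi (q x)
        rwa [inv_inv] at this
      rw [h3, hni, ← mul_assoc, inv_mul_cancel₀ hm0.ne', one_mul] at h2
      exact h2)
    have h2 := scale_hyp hmc h1
    simp only [scale_inv hmc] at h2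
    exact h2

theorem represents_eq {d : ℕ} (hd : 2 ≤ d) {p : Pair d} (hp : Nondeg p)
    {f : OnePoint ℂ → OnePoint ℂ} (h : Represents p f) : f = Pool.Agent.H56.CF.rm p := by
  have hdg : 0 < Pool.Agent.H44.Fatou.dg (poly p.1) (poly p.2) := by
    show 0 < max (poly p.1).natDegree (poly p.2).natDegree
    rw [hp.2]
    omega
  exact Pool.Agent.H91.Fatou.ext_eq_rat hp.1 (Pool.Agent.H91.Fatou.q_ne_zero hp.1 hdg) h.1 h.2

/-- density fails over a minimal base which is not totally disconnected -/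
theorem td_of_dense (d : ℕ) (hd : 2 ≤ d) (B : Type u) [TopologicalSpace B] [CompactSpace B]
    [T2Space B] [Infinite B] (T : B ≃ₜ B) (hT : MinimalHomeo T)
    (h : ∀ p : B → Pair d, Continuous p → (∀ x, Nondeg (p x)) → ∀ ε : ℝ, 0 < ε →
      ∃ q : B → Pair d, Continuous q ∧ (∀ x, Close (q x) (p x) ε) ∧ HyperbolicFamily (⇑T) q) :
    TotallyDisconnectedSpace B := by
  by_contra hB
  obtain ⟨p, hp, hpd, -, η, hη, hno⟩ := Pool.Agent.H56.DI.converse (T := T) hT hd hB
  obtain ⟨q, hq, hqp, hnd, g, hg, ⟨δ, hδ, C', l, hl0, hl1, hu⟩, -⟩ := h p hp (fun x => hpd x) η hη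
  have hgq : g = fun x => Pool.Agent.H56.CF.rm (q x) := by
    funext x
    exact represents_eq hd (hnd x) (hg x)
  subst hgq
  refine hno q hq (fun x => ?_) ⟨δ, hδ, C', l, hl0, hl1, fun x c hc k n y hy => ?_⟩
  · rw [Prod.dist_eq, max_lt_iff, dist_pi_lt_iff hη, dist_pi_lt_iff hη]
    refine ⟨fun i => ?_, fun i => ?_⟩
    · rw [dist_eq_norm]
      exact (hqp x i).1
    · rw [dist_eq_norm]
      exact (hqp x i).2
  · have e1 := compose_eq (⇑T) (fun x => Pool.Agent.H56.CF.rm (q x)) x k n y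
    have e2 := fun m => compose_eq0 (⇑T) (fun x => Pool.Agent.H56.CF.rm (q x)) x m
    have h1 := hu x c hc k n y (by rw [e2, chord_eq]; exact hy)
    rw [e1, e2, chord_eq] at h1
    exact h1

/-- Let `d ≥ 2`.
PART 1.  Let `ε > 0`, `M ≥ 1`, and let `K` be a compact set of nondegenerate pairs.  There are `N`
and `C` such that the following holds.
(1) Words of rational maps (this is (2) for the cyclic base `B = ℤ/n`): for all `n ≥ N` and all words
`p 0, ..., p (n-1)` of pairs of polynomials of degree at most `d` with coefficients of modulus at most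
`1` there are rational maps `q j` of degree exactly `d`, coefficientwise `ε`-close to them, whose
composition in this order is hyperbolic.  Moreover `q j` is `R j ∘ (p j)`, for a rotation `R j`
that is `ε`-close to the identity, whenever `p j ∈ K`, and at most `n / M` of the `R j` are different from
the identity.
(2) The same over a dynamical system: for every homeomorphism `T`, without periodic points of period
less than `N`, of a compact, Hausdorff, totally disconnected space `B`, and every continuous family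
`p x`, `x : B`, of such pairs there is a continuous family `q x` which is `ε`-close to `p x` and such
that all families sufficiently close to `q` are hyperbolic over `(B, T)`.  Moreover `q x` is
`R x ∘ (p x)`, for a rotation `R x` which is `ε`-close to the identity and depends locally constantly
on `x`, whenever `p x ∈ K`; among the first `n` rotations along any orbit at most `(n + C) / M`, and at
most `n / M` if the orbit is periodic with period `n`, are different from the identity.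
PART 2.  Let `T` be a minimal homeomorphism of an infinite compact Hausdorff space `B`.  The following are
equivalent: (a) `B` is totally disconnected; (b) every continuous family of pairs is, for every `ε > 0`,
`ε`-close to a continuous family `q` such that all families sufficiently close to `q` are hyperbolic;
(c) every continuous family of rational maps of degree exactly `d` is, for every `ε > 0`, `ε`-close to a
continuous hyperbolic family. -/
theorem result (d : ℕ) (hd : 2 ≤ d) :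
    (∀ K : Set (Pair d), IsCompact K → (∀ p ∈ K, Nondeg p) → ∀ ε : ℝ, 0 < ε → ∀ M : ℕ, 1 ≤ M →
      ∃ N C : ℕ,
        (∀ n ≥ N, ∀ p : ℕ → Pair d, (∀ j i, ‖(p j).1 i‖ ≤ 1 ∧ ‖(p j).2 i‖ ≤ 1) →
          ∃ (q : ℕ → Pair d) (a b : ℕ → ℂ) (g : ℕ → OnePoint ℂ → OnePoint ℂ),
            (∀ j < n, Nondeg (q j) ∧ Close (q j) (p j) ε ∧ Represents (q j) (g j)) ∧
            Hyperbolic (compose g n) ∧
            (∀ j, ‖a j‖ ^ 2 + ‖b j‖ ^ 2 = 1 ∧ ‖a j - 1‖ < ε ∧ ‖b j‖ < ε) ∧
            (∀ j < n, p j ∈ K → q j = rotate (a j) (b j) (p j)) ∧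
            M * {j : ℕ | j < n ∧ ¬ (a j = 1 ∧ b j = 0)}.ncard ≤ n) ∧
        ∀ (B : Type u) [TopologicalSpace B] [CompactSpace B] [T2Space B]
          [TotallyDisconnectedSpace B] (T : B ≃ₜ B),
          (∀ (x : B) (n : ℕ), 0 < n → n < N → (⇑T)^[n] x ≠ x) →
          ∀ p : B → Pair d, Continuous p → (∀ x i, ‖(p x).1 i‖ ≤ 1 ∧ ‖(p x).2 i‖ ≤ 1) →
          ∃ q : B → Pair d, Continuous q ∧ (∀ x, Close (q x) (p x) ε) ∧
            (∃ η : ℝ, 0 < η ∧ ∀ q' : B → Pair d, (∀ x, Close (q' x) (q x) η) →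
              HyperbolicFamily (⇑T) q') ∧
            ∃ a b : B → ℂ, IsLocallyConstant a ∧ IsLocallyConstant b ∧
              (∀ x, ‖a x‖ ^ 2 + ‖b x‖ ^ 2 = 1 ∧ ‖a x - 1‖ < ε ∧ ‖b x‖ < ε) ∧
              (∀ x, p x ∈ K → q x = rotate (a x) (b x) (p x)) ∧
              (∀ (x : B) (n : ℕ), M * {j : ℕ | j < n ∧
                ¬ (a ((⇑T)^[j] x) = 1 ∧ b ((⇑T)^[j] x) = 0)}.ncard ≤ n + C) ∧
              (∀ (x : B) (n : ℕ), (⇑T)^[n] x = x → M * {j : ℕ | j < n ∧
                ¬ (a ((⇑T)^[j] x) = 1 ∧ b ((⇑T)^[j] x) = 0)}.ncard ≤ n)) ∧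
    ∀ (B : Type u) [TopologicalSpace B] [CompactSpace B] [T2Space B] [Infinite B] (T : B ≃ₜ B),
      MinimalHomeo T → List.TFAE [
        TotallyDisconnectedSpace B,
        ∀ p : B → Pair d, Continuous p → ∀ ε : ℝ, 0 < ε →
          ∃ q : B → Pair d, Continuous q ∧ (∀ x, Close (q x) (p x) ε) ∧
            ∃ η : ℝ, 0 < η ∧ ∀ q' : B → Pair d, (∀ x, Close (q' x) (q x) η) →
              HyperbolicFamily (⇑T) q',
        ∀ p : B → Pair d, Continuous p → (∀ x, Nondeg (p x)) → ∀ ε : ℝ, 0 < ε →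
          ∃ q : B → Pair d, Continuous q ∧ (∀ x, Close (q x) (p x) ε) ∧
            HyperbolicFamily (⇑T) q] := by
  refine ⟨?_, ?_⟩
  · intro K hK hKd ε hε M hM
    obtain ⟨N₁, h1⟩ := words d hd K hK hKd ε hε M hM
    obtain ⟨N₂, C, h2⟩ := general.{u} d hd K hK hKd ε hε M hM
    refine ⟨max N₁ N₂, C, fun n hn => h1 n ((le_max_left _ _).trans hn), ?_⟩
    intro B _ _ _ _ T hT
    exact h2 B T (fun x n hn1 hn2 => hT x n hn1 (hn2.trans_le (le_max_right _ _)))
  · intro B _ _ _ _ T hT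
    tfae_have 1 → 2 := by
      intro hB p hp ε hε
      exact dense_of_td d hd B T (fun x n hn => Pool.Agent.H56.DI.min_aper (T := T) hT x n hn)
        p hp ε hε
    tfae_have 2 → 3 := by
      intro h p hp _ ε hε
      obtain ⟨q, hq, hqp, η, hη, hh⟩ := h p hp ε hε
      refine ⟨q, hq, hqp, hh q fun x i => ?_⟩
      rw [sub_self, sub_self, norm_zero]
      exact ⟨hη, hη⟩
    tfae_have 3 → 1 := fun h => td_of_dense d hd B T hT h
    tfae_finish

end Pool.Agent.Results.MP_8f2e1c_an.FibredDichotomy
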